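import Pool.Agent.H12.QN.Stmts2

/-! # Board qnb (MP_fa59e7_an), row LOC (after row L2B of helper99) -/

set_option autoImplicit false

namespace Pool.QN

open Finset MeasureTheory

namespace LOC

theorem norm_ee (t : ℝ) : ‖ee t‖ = 1 := by
  unfold ee
  exact Complex.norm_exp_ofReal_mul_I _

theorem ee_mul_conj (s t : ℝ) : ee s * (starRingEnd ℂ) (ee t) = ee (s - t) := by
  unfold ee
  rw [← Complex.exp_conj, ← Complex.exp_add]
  congr 1
  rw [map_mul, Complex.conj_ofReal, Complex.conj_I]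
  push_cast
  ring

theorem continuous_ee : Continuous ee := by
  unfold ee
  fun_prop

theorem cont_phi {c B : ℝ} {φ φ1 φ2 : ℝ → ℝ} (h : Cur c B φ φ1 φ2) :
    ContinuousOn φ (Set.Icc (-1) 1) := fun x hx => (h.d1 x hx).continuousWithinAt

/-- the measure on the interval -/
noncomputable def nu (al be : ℝ) : Measure ℝ := volume.restrict (Set.Icc al be)

theorem int_ee {φ : ℝ → ℝ} {al be : ℝ} (hφ : ContinuousOn φ (Set.Icc al be)) (u v : ℝ) :
    Integrable (fun x => ee (u * x + v * φ x)) (nu al be) := by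
  unfold nu
  refine ContinuousOn.integrableOn_compact isCompact_Icc ?_
  refine continuous_ee.comp_continuousOn ?_
  exact (continuousOn_const.mul continuousOn_id).add (continuousOn_const.mul hφ)

theorem int_nu {al be : ℝ} (hab : al ≤ be) (f : ℝ → ℂ) :
    ∫ x, f x ∂(nu al be) = ∫ x in al..be, f x := by
  unfold nu
  rw [intervalIntegral.integral_of_le hab, integral_Icc_eq_integral_Ioc]

theorem int_nu' {al be : ℝ} (hab : al ≤ be) (f : ℝ → ℝ) :
    ∫ x, f x ∂(nu al be) = ∫ x in al..be, f x := by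
  unfold nu
  rw [intervalIntegral.integral_of_le hab, integral_Icc_eq_integral_Ioc]

theorem nu_univ {al be : ℝ} (hab : al ≤ be) : (nu al be).real Set.univ = be - al := by
  unfold nu
  rw [measureReal_def, Measure.restrict_apply_univ, Real.volume_Icc]
  exact ENNReal.toReal_ofReal (by linarith)

/-- the Schur kernel -/
noncomputable def kk (c C1 J : ℝ) (n m : ℤ) : ℝ :=
  (if n = m then J else 0) + (if |((n + m : ℤ) : ℝ)| < 2 / c then J else 0) +
    C1 * (1 / |((n - m : ℤ) : ℝ)| * (1 / |((n + m : ℤ) : ℝ)|))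

theorem kk_symm (c C1 J : ℝ) (n m : ℤ) : kk c C1 J n m = kk c C1 J m n := by
  unfold kk
  have h1 : |((n - m : ℤ) : ℝ)| = |((m - n : ℤ) : ℝ)| := by
    push_cast
    exact abs_sub_comm _ _
  rw [h1, add_comm n m]
  simp only [eq_comm]

theorem kk_nonneg {c C1 J : ℝ} (h : 0 < C1) (hJ : 0 ≤ J) (n m : ℤ) : 0 ≤ kk c C1 J n m := by
  unfold kk
  have h1 : (0 : ℝ) ≤ if n = m then J else 0 := by split_ifs <;> simp [hJ]
  have h2 : (0 : ℝ) ≤ if |((n + m : ℤ) : ℝ)| < 2 / c then J else 0 := by split_ifs <;> simp [hJ]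
  have h3 : 0 ≤ C1 * (1 / |((n - m : ℤ) : ℝ)| * (1 / |((n + m : ℤ) : ℝ)|)) := by positivity
  linarith

theorem sum_Icc (L : ℕ) :
    ∑ h ∈ Finset.Icc (-(L : ℤ)) L, 1 / |(h : ℝ)| = 2 * ∑ t ∈ range L, 1 / ((t : ℝ) + 1) := by
  induction L with
  | zero => simp
  | succ L ih =>
    have h1 : Finset.Icc (-((L + 1 : ℕ) : ℤ)) ((L + 1 : ℕ) : ℤ) =
        insert ((L + 1 : ℕ) : ℤ) (insert (-((L + 1 : ℕ) : ℤ)) (Finset.Icc (-(L : ℤ)) L)) := by
      ext x
      simp only [Finset.mem_Icc, Finset.mem_insert]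
      omega
    rw [h1, Finset.sum_insert, Finset.sum_insert, ih, Finset.sum_range_succ]
    · have h2 : |(((L + 1 : ℕ) : ℤ) : ℝ)| = (L : ℝ) + 1 := by
        push_cast
        exact abs_of_nonneg (by positivity)
      have h3 : |((-((L + 1 : ℕ) : ℤ) : ℤ) : ℝ)| = (L : ℝ) + 1 := by
        rw [Int.cast_neg, abs_neg]
        exact h2
      rw [h2, h3]
      ring
    · simp only [Finset.mem_Icc]
      omega
    · simp only [Finset.mem_Icc, Finset.mem_insert]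
      omega

theorem sum_Icc_le (N : ℕ) (hN : 1 ≤ N) :
    ∑ h ∈ Finset.Icc (-((2 * N : ℕ) : ℤ)) ((2 * N : ℕ) : ℤ), 1 / |(h : ℝ)| ≤
      4 * (1 + Real.log N) := by
  rw [sum_Icc]
  have h1 := harmonic_le_one_add_log (2 * N)
  have h2 : ((harmonic (2 * N) : ℚ) : ℝ) = ∑ t ∈ range (2 * N), 1 / ((t : ℝ) + 1) := by
    unfold harmonic
    push_cast
    exact Finset.sum_congr rfl fun t _ => (one_div _).symm
  rw [h2] at h1
  have h3 : Real.log ((2 * N : ℕ) : ℝ) ≤ 1 + Real.log N := by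
    push_cast
    rw [Real.log_mul (by norm_num) (by positivity)]
    have h4 : Real.log 2 ≤ 1 := by
      have := Real.log_two_lt_d9
      linarith
    linarith
  have h5 : 0 ≤ Real.log N := Real.log_natCast_nonneg N
  linarith

theorem aux_uv (u v M : ℝ) (hu : 0 < u) (hv : 0 < v) (hM : 0 < M) (h : 2 * M ≤ u + v) :
    1 / u * (1 / v) ≤ (1 / (2 * M)) * (1 / u + 1 / v) := by
  have e1 : 1 / u * (1 / v) = (1 / (u + v)) * (1 / u + 1 / v) := by
    have h1 : u + v ≠ 0 := by positivity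
    field_simp
    ring
  rw [e1]
  refine mul_le_mul_of_nonneg_right ?_ (by positivity)
  exact one_div_le_one_div_of_le (by positivity) h

theorem sum_kk (c C1 J : ℝ) (h1 : 0 < C1) (hJ : 0 ≤ J) (M0 : ℕ) (hM : 2 / c ≤ M0) (M N : ℕ)
    (hM1 : 1 ≤ M) (hMN : M ≤ N) (S : Finset ℤ) (hS : ∀ n ∈ S, (M:ℤ) ≤ |n| ∧ |n| ≤ (N:ℤ)) (n : ℤ)
    (hn : n ∈ S) :
    ∑ m ∈ S, kk c C1 J n m ≤ J + J * (2 * M0 + 1) + 4 * C1 * ((1 + Real.log N) / M) := by
  have hA : ∑ m ∈ S, (if n = m then J else 0) ≤ J := by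
    rw [Finset.sum_ite_eq]
    split_ifs
    exact le_refl _
  have hB : ∑ m ∈ S, (if |((n + m : ℤ) : ℝ)| < 2 / c then J else 0) ≤ J * (2 * M0 + 1) := by
    rw [← Finset.sum_filter, Finset.sum_const, nsmul_eq_mul, mul_comm]
    have hc : (S.filter fun m => |((n + m : ℤ) : ℝ)| < 2 / c).card ≤
        (Finset.Icc (-(M0 : ℤ)) M0).card := by
      refine Finset.card_le_card_of_injOn (fun m => n + m) ?_ ?_
      · intro m hm
        have hm1 := (Finset.mem_filter.1 (Finset.mem_coe.1 hm)).2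
        have hm2 : |((n + m : ℤ) : ℝ)| ≤ M0 := (hm1.le).trans hM
        rw [Finset.mem_coe, Finset.mem_Icc]
        rw [abs_le] at hm2
        constructor
        · exact_mod_cast hm2.1
        · exact_mod_cast hm2.2
      · intro a _ b _ hab
        exact add_left_cancel hab
    rw [Int.card_Icc] at hc
    have hc' : ((S.filter fun m => |((n + m : ℤ) : ℝ)| < 2 / c).card : ℝ) ≤ 2 * M0 + 1 := by
      have : (S.filter fun m => |((n + m : ℤ) : ℝ)| < 2 / c).card ≤ 2 * M0 + 1 := by omega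
      exact_mod_cast this
    exact mul_le_mul_of_nonneg_left hc' hJ
  have hmem : ∀ m ∈ S, (-((2 * N : ℕ) : ℤ) ≤ n - m ∧ n - m ≤ ((2 * N : ℕ) : ℤ)) ∧
      (-((2 * N : ℕ) : ℤ) ≤ n + m ∧ n + m ≤ ((2 * N : ℕ) : ℤ)) := by
    intro m hm
    have h2 := abs_le.1 (hS n hn).2
    have h3 := abs_le.1 (hS m hm).2
    push_cast
    omega
  have hC : ∑ m ∈ S, 1 / |((n - m : ℤ) : ℝ)| ≤ 4 * (1 + Real.log N) := by
    refine le_trans ?_ (sum_Icc_le N (hM1.trans hMN))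
    have h2 : ∑ m ∈ S, 1 / |((n - m : ℤ) : ℝ)| = ∑ h ∈ S.image (fun m => n - m), 1 / |(h : ℝ)| := by
      rw [Finset.sum_image]
      intro a _ b _ hab
      exact sub_right_injective hab
    rw [h2]
    refine Finset.sum_le_sum_of_subset_of_nonneg ?_ (fun _ _ _ => by positivity)
    intro h hh
    obtain ⟨m, hm, rfl⟩ := Finset.mem_image.1 hh
    exact Finset.mem_Icc.2 (hmem m hm).1
  have hD : ∑ m ∈ S, 1 / |((n + m : ℤ) : ℝ)| ≤ 4 * (1 + Real.log N) := by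
    refine le_trans ?_ (sum_Icc_le N (hM1.trans hMN))
    have h2 : ∑ m ∈ S, 1 / |((n + m : ℤ) : ℝ)| = ∑ h ∈ S.image (fun m => n + m), 1 / |(h : ℝ)| := by
      rw [Finset.sum_image]
      intro a _ b _ hab
      exact add_left_cancel hab
    rw [h2]
    refine Finset.sum_le_sum_of_subset_of_nonneg ?_ (fun _ _ _ => by positivity)
    intro h hh
    obtain ⟨m, hm, rfl⟩ := Finset.mem_image.1 hh
    exact Finset.mem_Icc.2 (hmem m hm).2
  have hM0 : (0 : ℝ) < M := by exact_mod_cast (by omega : 0 < M)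
  have hE : ∀ m ∈ S, 1 / |((n - m : ℤ) : ℝ)| * (1 / |((n + m : ℤ) : ℝ)|) ≤
      (1 / (2 * M)) * (1 / |((n - m : ℤ) : ℝ)| + 1 / |((n + m : ℤ) : ℝ)|) := by
    intro m _
    rcases eq_or_ne (n - m) 0 with h2 | h2
    · rw [h2]
      simp only [Int.cast_zero, abs_zero, div_zero, zero_mul, zero_add]
      positivity
    rcases eq_or_ne (n + m) 0 with h3 | h3
    · rw [h3]
      simp only [Int.cast_zero, abs_zero, div_zero, mul_zero, add_zero]
      positivity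
    have h4 : 0 < |((n - m : ℤ) : ℝ)| := abs_pos.2 (by exact_mod_cast h2)
    have h5 : 0 < |((n + m : ℤ) : ℝ)| := abs_pos.2 (by exact_mod_cast h3)
    have h6 : 2 * (M : ℝ) ≤ |((n - m : ℤ) : ℝ)| + |((n + m : ℤ) : ℝ)| := by
      have h7 : 2 * (M : ℤ) ≤ |n - m| + |n + m| := by
        have h8 := (hS n hn).1
        have h9 : |2 * n| ≤ |n - m| + |n + m| := by
          have := abs_add_le (n - m) (n + m)
          have e : n - m + (n + m) = 2 * n := by ring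
          rwa [e] at this
        rw [abs_mul] at h9
        have h10 : |(2 : ℤ)| = 2 := by norm_num
        rw [h10] at h9
        linarith
      exact_mod_cast h7
    exact aux_uv _ _ _ h4 h5 hM0 h6
  have hF : ∑ m ∈ S, 1 / |((n - m : ℤ) : ℝ)| * (1 / |((n + m : ℤ) : ℝ)|) ≤
      4 * ((1 + Real.log N) / M) := by
    refine (Finset.sum_le_sum hE).trans ?_
    rw [← Finset.mul_sum, Finset.sum_add_distrib]
    refine (mul_le_mul_of_nonneg_left (add_le_add hC hD) (by positivity)).trans (le_of_eq ?_)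
    field_simp
    ring
  unfold kk
  rw [Finset.sum_add_distrib, Finset.sum_add_distrib, ← Finset.mul_sum]
  have hG := mul_le_mul_of_nonneg_left hF h1.le
  linarith

theorem ker_le {c B C1 : ℝ} (hC1 : 0 < C1)
    (hV : ∀ φ φ1 φ2 : ℝ → ℝ, Cur c B φ φ1 φ2 →
      ∀ al be : ℝ, -1 ≤ al → al ≤ be → be ≤ 1 → ∀ h s : ℤ, h ≠ 0 → 2 / c ≤ |(s:ℝ)| →
        ‖∫ x in al..be, ee (h * (x + s * φ x))‖ ≤ C1 / (|(h:ℝ)| * |(s:ℝ)|))
    {φ φ1 φ2 : ℝ → ℝ} (h : Cur c B φ φ1 φ2) {al be : ℝ} (hal : -1 ≤ al) (hab : al ≤ be)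
    (hbe : be ≤ 1) (n m : ℤ) :
    ‖∫ x, ee ((n * x + (n:ℝ) ^ 2 * φ x) - (m * x + (m:ℝ) ^ 2 * φ x)) ∂(nu al be)‖ ≤
      kk c C1 (be - al) n m := by
  have hn3 : 0 ≤ C1 * (1 / |((n - m : ℤ) : ℝ)| * (1 / |((n + m : ℤ) : ℝ)|)) := by positivity
  have hJ : 0 ≤ be - al := by linarith
  have htriv : ‖∫ x, ee ((n * x + (n:ℝ) ^ 2 * φ x) - (m * x + (m:ℝ) ^ 2 * φ x)) ∂(nu al be)‖ ≤
      be - al := by
    have : IsFiniteMeasure (nu al be) := by unfold nu; infer_instance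
    have h1 := norm_integral_le_of_norm_le_const (μ := nu al be) (C := 1)
      (f := fun x => ee ((n * x + (n:ℝ) ^ 2 * φ x) - (m * x + (m:ℝ) ^ 2 * φ x)))
      (Filter.Eventually.of_forall fun x => (norm_ee _).le)
    rw [nu_univ hab, one_mul] at h1
    exact h1
  unfold kk
  by_cases hnm : n = m
  · rw [if_pos hnm]
    have h2 : (0 : ℝ) ≤ if |((n + m : ℤ) : ℝ)| < 2 / c then be - al else 0 := by
      split_ifs <;> simp [hJ]
    linarith
  · rw [if_neg hnm]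
    by_cases hs : |((n + m : ℤ) : ℝ)| < 2 / c
    · rw [if_pos hs]
      linarith
    · rw [if_neg hs, zero_add, zero_add]
      rw [not_lt] at hs
      have h1 := hV φ φ1 φ2 h al be hal hab hbe (n - m) (n + m) (sub_ne_zero.2 hnm) hs
      rw [int_nu hab]
      have he : (∫ x in al..be, ee ((n * x + (n:ℝ) ^ 2 * φ x) - (m * x + (m:ℝ) ^ 2 * φ x))) =
          ∫ x in al..be, ee (((n - m : ℤ) : ℝ) * (x + ((n + m : ℤ) : ℝ) * φ x)) := by
        congr 1
        funext x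
        congr 1
        push_cast
        ring
      rw [he]
      refine h1.trans (le_of_eq ?_)
      rw [div_eq_mul_one_div, one_div_mul_one_div]

theorem expand {φ : ℝ → ℝ} {al be : ℝ} (hφ : ContinuousOn φ (Set.Icc al be)) (S : Finset ℤ)
    (a : ℤ → ℂ) :
    ((∫ x, ‖FF S a φ x‖ ^ 2 ∂(nu al be) : ℝ) : ℂ) = ∑ n ∈ S, ∑ m ∈ S,
      a n * (starRingEnd ℂ) (a m) *
      ∫ x, ee ((n * x + (n:ℝ) ^ 2 * φ x) - (m * x + (m:ℝ) ^ 2 * φ x)) ∂(nu al be) := by
  have hI : ∀ n m : ℤ, Integrable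
      (fun x => ee ((n * x + (n:ℝ) ^ 2 * φ x) - (m * x + (m:ℝ) ^ 2 * φ x))) (nu al be) := by
    intro n m
    have h1 := int_ee hφ ((n : ℝ) - m) ((n : ℝ) ^ 2 - (m : ℝ) ^ 2)
    refine h1.congr (Filter.Eventually.of_forall fun x => ?_)
    change ee _ = ee _
    congr 1
    ring
  rw [← integral_complex_ofReal]
  have h2 : ∀ x : ℝ, ((‖FF S a φ x‖ ^ 2 : ℝ) : ℂ) = ∑ n ∈ S, ∑ m ∈ S,
      a n * (starRingEnd ℂ) (a m) *
        ee ((n * x + (n:ℝ) ^ 2 * φ x) - (m * x + (m:ℝ) ^ 2 * φ x)) := by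
    intro x
    rw [Complex.ofReal_pow, ← Complex.mul_conj']
    unfold FF
    rw [map_sum, Finset.sum_mul_sum]
    refine Finset.sum_congr rfl fun n _ => Finset.sum_congr rfl fun m _ => ?_
    rw [map_mul, ← ee_mul_conj]
    ring
  have h3 : ∫ x, ((‖FF S a φ x‖ ^ 2 : ℝ) : ℂ) ∂(nu al be) = ∫ x, ∑ n ∈ S, ∑ m ∈ S,
      a n * (starRingEnd ℂ) (a m) *
        ee ((n * x + (n:ℝ) ^ 2 * φ x) - (m * x + (m:ℝ) ^ 2 * φ x)) ∂(nu al be) :=
    integral_congr_ae (Filter.Eventually.of_forall h2)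
  refine Eq.trans h3 ?_
  rw [integral_finsetSum _ (fun n _ => integrable_finsetSum _ fun m _ => (hI n m).const_mul _)]
  refine Finset.sum_congr rfl fun n _ => ?_
  rw [integral_finsetSum _ (fun m _ => (hI n m).const_mul _)]
  refine Finset.sum_congr rfl fun m _ => ?_
  rw [integral_const_mul]

end LOC

open LOC in
/-- row LOC -/
theorem loc_thm (hVDJ : VDJStmt) : LOCStmt := by
  intro c B
  obtain ⟨C1, hC1, hV⟩ := hVDJ c B
  set M0 : ℕ := ⌈2 / c⌉₊ with hM0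
  have hMc : 2 / c ≤ M0 := Nat.le_ceil _
  refine ⟨2 + 2 * M0 + 4 * C1, by positivity, ?_⟩
  intro φ φ1 φ2 h al be hal hab hbe M N hM1 hMN S hS a
  have hφ : ContinuousOn φ (Set.Icc al be) := (cont_phi h).mono (Set.Icc_subset_Icc hal hbe)
  have hJ : 0 ≤ be - al := by linarith
  rw [← int_nu' hab]
  have h0 : 0 ≤ ∫ x, ‖FF S a φ x‖ ^ 2 ∂(nu al be) := integral_nonneg fun x => by positivity
  have h1 : ∫ x, ‖FF S a φ x‖ ^ 2 ∂(nu al be) ≤
      ∑ n ∈ S, ∑ m ∈ S, ‖a n‖ * ‖a m‖ * kk c C1 (be - al) n m := by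
    have h2 : ∫ x, ‖FF S a φ x‖ ^ 2 ∂(nu al be) =
        ‖((∫ x, ‖FF S a φ x‖ ^ 2 ∂(nu al be) : ℝ) : ℂ)‖ := by
      rw [Complex.norm_real, Real.norm_of_nonneg h0]
    rw [h2, expand hφ]
    refine (norm_sum_le _ _).trans (Finset.sum_le_sum fun n _ => ?_)
    refine (norm_sum_le _ _).trans (Finset.sum_le_sum fun m _ => ?_)
    rw [norm_mul, norm_mul, RCLike.norm_conj]
    exact mul_le_mul_of_nonneg_left (ker_le hC1 hV h hal hab hbe n m) (by positivity)
  refine h1.trans ?_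
  have h3 : ∑ n ∈ S, ∑ m ∈ S, ‖a n‖ * ‖a m‖ * kk c C1 (be - al) n m ≤
      ∑ n ∈ S, ∑ m ∈ S, ((‖a n‖ ^ 2 / 2) * kk c C1 (be - al) n m +
        (‖a m‖ ^ 2 / 2) * kk c C1 (be - al) n m) := by
    refine Finset.sum_le_sum fun n _ => Finset.sum_le_sum fun m _ => ?_
    have hk := kk_nonneg (c := c) hC1 hJ n m
    nlinarith [sq_nonneg (‖a n‖ - ‖a m‖)]
  refine h3.trans ?_
  have h4 : ∑ n ∈ S, ∑ m ∈ S, ((‖a n‖ ^ 2 / 2) * kk c C1 (be - al) n m +
        (‖a m‖ ^ 2 / 2) * kk c C1 (be - al) n m) =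
      ∑ n ∈ S, ‖a n‖ ^ 2 * ∑ m ∈ S, kk c C1 (be - al) n m := by
    simp only [Finset.sum_add_distrib]
    have h5 : ∑ n ∈ S, ∑ m ∈ S, (‖a m‖ ^ 2 / 2) * kk c C1 (be - al) n m =
        ∑ n ∈ S, ∑ m ∈ S, (‖a n‖ ^ 2 / 2) * kk c C1 (be - al) n m := by
      rw [Finset.sum_comm]
      refine Finset.sum_congr rfl fun n _ => Finset.sum_congr rfl fun m _ => ?_
      rw [kk_symm]
    rw [h5, ← Finset.sum_add_distrib]
    refine Finset.sum_congr rfl fun n _ => ?_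
    rw [← Finset.mul_sum]
    ring
  rw [h4, Finset.mul_sum]
  refine Finset.sum_le_sum fun n hn => ?_
  rw [mul_comm]
  refine mul_le_mul_of_nonneg_right
    ((sum_kk c C1 (be - al) hC1 hJ M0 hMc M N hM1 hMN S hS n hn).trans ?_) (by positivity)
  have hlog : 0 ≤ (1 + Real.log N) / (M : ℝ) := by
    have := Real.log_natCast_nonneg N
    positivity
  have hM0' : (0 : ℝ) ≤ M0 := Nat.cast_nonneg _
  nlinarith [mul_nonneg hJ hC1.le, mul_nonneg hlog hM0']

end Pool.QN
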